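import Pool.Agent.H36.TB.EnX

/-!
# XB Coord: charts with given coordinate functions, the coefficient of a form in another chart
-/

set_option autoImplicit false
set_option linter.unusedSectionVars false

open Topology Filter Metric

noncomputable section

namespace Pool.Agent.H82.XB

open Pool.Agent.H17BP (Surface IsForm IsChart Bihol surface_iff chart_iff isForm_iff)
open Pool.Agent.H36.TB (oC)

variable {V : Type} [NormedAddCommGroup V] [NormedSpace ℂ V] {X : Set V} {σ : ℂ × ℂ → V} {τ : V → ℂ × ℂ}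

/-- A function, homogeneous of degree `0`, which is biholomorphic in a chart is the coordinate map of a chart. -/
theorem chart_of_coord {f : V → ℂ × ℂ} (h : IsChart X σ τ) (hf : AnalyticAt ℂ f (σ 0)) (hf' : ∀ c : ℂ, c ≠ 0 → ∀ x, f (c • x) = f x)
    (hb : Bihol fun p => f (σ p)) :
    ∃ θ : ℂ × ℂ → ℂ × ℂ, Bihol θ ∧ IsChart X (fun p => σ (θ p)) f ∧ (∀ᶠ p in 𝓝 (0 : ℂ × ℂ), f (σ (θ p)) = p) := by
  obtain ⟨θ, h1, h2, h3, h4⟩ := hb.inv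
  have hθ : Bihol θ := ⟨h1, h2, fun p => f (σ p), hb.an, hb.zero, h4, h3⟩
  have hθt : Tendsto θ (𝓝 0) (𝓝 0) := by
    have := h1.continuousAt.tendsto
    rwa [h2] at this
  have hτ0 : τ (σ 0) = 0 := h.left.self_of_nhds
  have hτ : Tendsto τ (𝓝 (σ 0)) (𝓝 0) := by
    have := h.τ_an.continuousAt.tendsto
    rwa [hτ0] at this
  refine ⟨θ, hθ, ⟨?_, hθt.eventually h.σ_mem, ?_, ?_, h4, ?_, ?_⟩, h4⟩
  · refine AnalyticAt.comp (g := σ) (f := θ) ?_ h1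
    rw [h2]
    exact h.σ_an
  · simp only [h2]
    exact h.ne
  · simp only [h2]
    exact hf
  · simp only [h2]
    filter_upwards [h.right, hτ.eventually h3] with y g1 g2 hyX
    obtain ⟨c, hc, g3⟩ := g1 hyX
    refine ⟨c, hc, ?_⟩
    have g4 : f y = f (σ (τ y)) := by
      conv_lhs => rw [g3]
      exact hf' c hc _
    rw [g4, g2]
    exact g3
  · have g1 : ∀ᶠ p : V × ℂ in 𝓝 (σ (θ 0), (1 : ℂ)), p.2 ≠ 0 := continuousAt_snd.eventually_ne one_ne_zero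
    filter_upwards [g1] with p hp
    exact hf' _ hp _

/-- the determinant of the derivative -/
def jac (θ : ℂ × ℂ → ℂ × ℂ) (p : ℂ × ℂ) : ℂ :=
  (fderiv ℂ θ p (1, 0)).1 * (fderiv ℂ θ p (0, 1)).2 - (fderiv ℂ θ p (1, 0)).2 * (fderiv ℂ θ p (0, 1)).1

theorem jac_an {θ : ℂ × ℂ → ℂ × ℂ} (h : AnalyticAt ℂ θ 0) : AnalyticAt ℂ (jac θ) 0 := by
  have h1 : ∀ w : ℂ × ℂ, AnalyticAt ℂ (fun p => fderiv ℂ θ p w) 0 := fun w =>
    ((ContinuousLinearMap.apply ℂ (ℂ × ℂ) w).analyticAt _).comp h.fderiv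
  have h2 : ∀ w : ℂ × ℂ, AnalyticAt ℂ (fun p => (fderiv ℂ θ p w).1) 0 := fun w => AnalyticAt.comp analyticAt_fst (h1 w)
  have h3 : ∀ w : ℂ × ℂ, AnalyticAt ℂ (fun p => (fderiv ℂ θ p w).2) 0 := fun w => AnalyticAt.comp analyticAt_snd (h1 w)
  exact ((h2 _).mul (h3 _)).sub ((h3 _).mul (h2 _))

theorem jac_ne {θ : ℂ × ℂ → ℂ × ℂ} (h : Bihol θ) : jac θ 0 ≠ 0 := by
  have h1 := (Pool.Agent.H17BP.bihol_iff h.an h.zero).1 h
  intro h2
  apply h1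
  rw [jac] at h2
  linear_combination h2

/-- the coefficient of the form in another chart -/
theorem oC_comp {m j : ℕ} {Ω : V → V → V → ℂ} (hΩ : IsForm X m j Ω) (h : IsChart X σ τ) [FiniteDimensional ℂ V] {θ : ℂ × ℂ → ℂ × ℂ}
    (hθ : Bihol θ) : ∀ᶠ p in 𝓝 (0 : ℂ × ℂ), oC Ω (fun x => σ (θ x)) p = jac θ p ^ m * oC Ω σ (θ p) := by
  have : CompleteSpace V := FiniteDimensional.complete ℂ V
  have hΩ' := isForm_iff.2 hΩ
  have hθt : Tendsto θ (𝓝 0) (𝓝 0) := by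
    have := hθ.an.continuousAt.tendsto
    rwa [hθ.zero] at this
  filter_upwards [hθ.an.eventually_analyticAt, hθt.eventually h.σ_an.eventually_analyticAt, hθt.eventually h.σ_mem.eventually_nhds] with p h1 h2 h3
  have h4 : HasFDerivAt (fun x => σ (θ x)) ((fderiv ℂ σ (θ p)).comp (fderiv ℂ θ p)) p :=
    h2.differentiableAt.hasFDerivAt.comp p h1.differentiableAt.hasFDerivAt
  have h5 : ∀ w : ℂ × ℂ, fderiv ℂ σ (θ p) w = w.1 • fderiv ℂ σ (θ p) (1, 0) + w.2 • fderiv ℂ σ (θ p) (0, 1) := fun w => by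
    rw [← map_smul, ← map_smul, ← map_add]
    congr 1
    ext <;> simp
  have h6 := hΩ'.det (σ (θ p)) h3.self_of_nhds (fderiv ℂ σ (θ p) (1, 0)) (fderiv ℂ σ (θ p) (0, 1))
    (Pool.Agent.H62.BU.tan_fderiv h2 h3 _) (Pool.Agent.H62.BU.tan_fderiv h2 h3 _) (fderiv ℂ θ p (1, 0)).1 (fderiv ℂ θ p (1, 0)).2
    (fderiv ℂ θ p (0, 1)).1 (fderiv ℂ θ p (0, 1)).2
  rw [← h5, ← h5] at h6
  rw [oC, h4.fderiv, oC, jac]
  exact h6

/-- two-sided bound of an analytic function which is not zero at the origin -/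
theorem two_sided {f : ℂ × ℂ → ℂ} (hf : ContinuousAt f 0) (h0 : f 0 ≠ 0) :
    ∃ B : ℝ, 1 ≤ B ∧ ∀ᶠ p in 𝓝 (0 : ℂ × ℂ), B⁻¹ ≤ ‖f p‖ ∧ ‖f p‖ ≤ B := by
  have h1 : Tendsto (fun p => ‖f p‖) (𝓝 0) (𝓝 ‖f 0‖) := hf.tendsto.norm
  have h2 : 0 < ‖f 0‖ := norm_pos_iff.2 h0
  have hB : (0 : ℝ) < max 1 (max (2 * ‖f 0‖) (2 / ‖f 0‖)) := lt_of_lt_of_le one_pos (le_max_left _ _)
  refine ⟨max 1 (max (2 * ‖f 0‖) (2 / ‖f 0‖)), le_max_left _ _, ?_⟩
  filter_upwards [h1.eventually (lt_mem_nhds (show ‖f 0‖ / 2 < ‖f 0‖ by linarith)),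
    h1.eventually (gt_mem_nhds (show ‖f 0‖ < 2 * ‖f 0‖ by linarith))] with p g1 g2
  refine ⟨?_, g2.le.trans ((le_max_left _ _).trans (le_max_right _ _))⟩
  have g3 : 2 / ‖f 0‖ ≤ max 1 (max (2 * ‖f 0‖) (2 / ‖f 0‖)) := (le_max_right _ _).trans (le_max_right _ _)
  have g4 : (max 1 (max (2 * ‖f 0‖) (2 / ‖f 0‖)))⁻¹ ≤ (2 / ‖f 0‖)⁻¹ := inv_anti₀ (by positivity) g3
  rw [inv_div] at g4
  linarith

end Pool.Agent.H82.XB
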