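import Pool.Agent.H36.TB.EnX

/-!
# XB Fac: the components of the chart of the blow-up at a point of the exceptional curve

`(σ₁ p) a = R a p • σ (p.1, p.1 p.2)`, `l a (σ (p.1, p.1 p.2)) = p.1 * R a p`, `R a (0, t) = l a (Dσ(0)(1, t))`.
-/

set_option autoImplicit false
set_option linter.unusedSectionVars false

open Topology Filter Metric

noncomputable section

namespace Pool.Agent.H82.XB

open Pool.Agent.H17BP (Surface IsForm IsChart Bihol surface_iff chart_iff isForm_iff)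
open Pool.Agent.H62.BU (blow total Ker phi om)
open Pool.Agent.H36.TB (oC cancel_fst)

variable {V : Type} [NormedAddCommGroup V] [NormedSpace ℂ V] {ι : Type} [Fintype ι] {l : ι → V →L[ℂ] ℂ} {X T : Set V} {q : V}
  {σ : ℂ × ℂ → V} {τ : V → ℂ × ℂ} {σ₁ : ℂ × ℂ → ι → V}

theorem exc_factor [FiniteDimensional ℂ V] (hl : Ker l q) (h : IsChart X σ τ) (h0 : σ 0 = q) (hσ₁ : AnalyticAt ℂ σ₁ 0)
    (h2 : ∀ᶠ p in 𝓝 (0 : ℂ × ℂ), phi l (σ (p.1, p.1 * p.2)) = p.1 • σ₁ p) (a : ι) :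
    ∃ R : ℂ × ℂ → ℂ, AnalyticAt ℂ R 0 ∧ (∀ᶠ p in 𝓝 (0 : ℂ × ℂ), σ₁ p a = R p • σ (p.1, p.1 * p.2) ∧
      l a (σ (p.1, p.1 * p.2)) = p.1 * R p) ∧ ∀ᶠ t in 𝓝 (0 : ℂ), R (0, t) = l a (fderiv ℂ σ 0 (1, t)) := by
  have : CompleteSpace V := FiniteDimensional.complete ℂ V
  have hq0 : q ≠ 0 := h0 ▸ h.ne
  obtain ⟨Λ, hΛ⟩ : ∃ Λ : V →L[ℂ] ℂ, Λ q ≠ 0 := by
    obtain ⟨Λ, hΛ⟩ := exists_dual_vector ℂ q (norm_ne_zero_iff.mpr hq0)
    refine ⟨Λ, ?_⟩
    rw [hΛ.2]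
    simpa using hq0
  obtain ⟨mm, hmm⟩ : ∃ mm : ℂ × ℂ → ℂ × ℂ, ∀ p, mm p = (p.1, p.1 * p.2) := ⟨fun p => (p.1, p.1 * p.2), fun p => rfl⟩
  have hm_an : ∀ p, AnalyticAt ℂ mm p := fun p => by
    have e0 : mm = fun p => (p.1, p.1 * p.2) := funext hmm
    rw [e0]
    exact analyticAt_fst.prod (analyticAt_fst.mul analyticAt_snd)
  have hm0 : mm 0 = 0 := by rw [hmm]; simp
  have h2' : ∀ᶠ p in 𝓝 (0 : ℂ × ℂ), phi l (σ (mm p)) = p.1 • σ₁ p := by
    filter_upwards [h2] with p hp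
    rw [hmm, hp]
  have hσm : AnalyticAt ℂ (fun p => σ (mm p)) 0 := AnalyticAt.comp (by rw [hm0]; exact h.σ_an) (hm_an 0)
  have hσb : AnalyticAt ℂ (fun p => σ₁ p a) 0 :=
    AnalyticAt.comp (g := fun y : ι → V => y a) ((ContinuousLinearMap.proj (R := ℂ) (φ := fun _ : ι => V) a).analyticAt _) hσ₁
  obtain ⟨R, hR⟩ : ∃ R : ℂ × ℂ → ℂ, ∀ p, R p = Λ (σ₁ p a) / Λ (σ (mm p)) := ⟨_, fun p => rfl⟩
  have hΛσ : AnalyticAt ℂ (fun p => Λ (σ (mm p))) 0 := (Λ.analyticAt _).comp hσm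
  have hΛσ0 : Λ (σ (mm 0)) ≠ 0 := by rw [hm0, h0]; exact hΛ
  have hR_an : AnalyticAt ℂ R 0 := by
    have e0 : R = fun p => Λ (σ₁ p a) / Λ (σ (mm p)) := funext hR
    rw [e0]
    exact ((Λ.analyticAt _).comp hσb).div hΛσ hΛσ0
  have hB : ∀ᶠ p in 𝓝 (0 : ℂ × ℂ), l a (σ (mm p)) = p.1 * R p := by
    filter_upwards [h2', hΛσ.continuousAt.eventually_ne hΛσ0] with p g1 g2
    have g3 := congrArg Λ (congrFun g1 a)
    simp only [phi, Pi.smul_apply, map_smul, smul_eq_mul] at g3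
    rw [hR, mul_div_assoc', eq_div_iff g2]
    exact g3
  have hA : ∀ᶠ p in 𝓝 (0 : ℂ × ℂ), σ₁ p a = R p • σ (mm p) := by
    refine cancel_fst hσb (hR_an.smul hσm) ?_
    filter_upwards [h2', hB] with p g1 g2
    have g3 := congrFun g1 a
    simp only [phi, Pi.smul_apply] at g3
    rw [← g3, g2, smul_smul]
  refine ⟨R, hR_an, ?_, ?_⟩
  · filter_upwards [hA, hB] with p g1 g2
    rw [hmm] at g1 g2
    exact ⟨g1, g2⟩
  · -- the value on the exceptional curve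
    have e1 : Tendsto (fun t : ℂ => ((0 : ℂ), t)) (𝓝 0) (𝓝 (0 : ℂ × ℂ)) :=
      (continuous_const.prodMk continuous_id).tendsto 0
    filter_upwards [e1.eventually hB.eventually_nhds, e1.eventually hR_an.eventually_analyticAt] with t g1 g2
    have hu : Tendsto (fun u : ℂ => (u, t)) (𝓝 0) (𝓝 ((0 : ℂ), t)) := (continuous_id.prodMk continuous_const).tendsto 0
    have g3 : Tendsto (fun u : ℂ => R (u, t)) (𝓝[≠] 0) (𝓝 (R (0, t))) :=
      (g2.continuousAt.tendsto.comp hu).mono_left nhdsWithin_le_nhds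
    have g4 : HasDerivAt (fun u : ℂ => l a (σ (u, u * t))) (l a (fderiv ℂ σ 0 (1, t))) 0 := by
      have a1 : HasDerivAt (fun u : ℂ => (u, u * t)) ((1 : ℂ), t) 0 := by
        have := (hasDerivAt_id (0 : ℂ)).prodMk ((hasDerivAt_id (0 : ℂ)).mul_const t)
        simpa using this
      have a2 : HasFDerivAt σ (fderiv ℂ σ 0) ((0 : ℂ), (0 : ℂ) * t) := by
        rw [zero_mul]
        exact h.σ_an.differentiableAt.hasFDerivAt
      exact (l a).hasFDerivAt.comp_hasDerivAt _ (HasFDerivAt.comp_hasDerivAt (0 : ℂ) (l := σ) (l' := fderiv ℂ σ 0) a2 a1)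
    have hla : l a q = 0 := (hl q).2 ⟨1, (one_smul _ _).symm⟩ a
    have g5 : Tendsto (fun u : ℂ => u⁻¹ * l a (σ (u, u * t))) (𝓝[≠] 0) (𝓝 (l a (fderiv ℂ σ 0 (1, t)))) := by
      have a1 := hasDerivAt_iff_tendsto_slope.1 g4
      refine a1.congr' ?_
      filter_upwards [self_mem_nhdsWithin] with u hu0
      have a3 : σ (0, 0 * t) = q := by rw [zero_mul]; exact h0
      rw [slope_def_module, a3, hla, sub_zero, sub_zero, smul_eq_mul]
    refine tendsto_nhds_unique g3 (g5.congr' ?_)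
    filter_upwards [mem_nhdsWithin_of_mem_nhds (hu.eventually g1), self_mem_nhdsWithin] with u h3 h4
    rw [hmm] at h3
    rw [h3, ← mul_assoc, inv_mul_cancel₀ h4, one_mul]

end Pool.Agent.H82.XB
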