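import Pool.Agent.H74.NB.Dec
import Pool.Agent.H62.BU.Alg

/-!
# XB Lift: the first lift at a bubble point

`F n` are lifts of curves which converge to `(z - w) ^ m • G z` near `w`, `G w = q` is the centre of the blow-up, `G` is immersed at `w`.
The lifts `e n • Φ n` to the blow-up converge to `(z - w) ^ k • G₁ z`, `k ≤ 2 m + 1`, `G₁ w = (l a (G' w) • q)_a`.
-/

set_option autoImplicit false
set_option linter.unusedSectionVars false

open Topology Filter Metric

namespace Pool.Agent.H82.XB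

open Pool.Agent.H62.BU (phi)
open Pool.Agent.H74.NB (CC Obj weier)

/-- continuous functions which agree off one point agree -/
theorem eq_of_punctured {w : ℂ} {s : ℝ} {f g : ℂ → ℂ} (hf : ContinuousOn f (ball w s)) (hg : ContinuousOn g (ball w s)) {c : ℂ}
    (h : ∀ z ∈ ball w s, z ≠ c → f z = g z) : ∀ z ∈ ball w s, f z = g z := by
  intro z hz
  by_cases hzc : z = c
  · have h1 : Tendsto f (𝓝[≠] z) (𝓝 (f z)) := (hf.continuousAt (isOpen_ball.mem_nhds hz)).tendsto.mono_left nhdsWithin_le_nhds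
    have h2 : Tendsto g (𝓝[≠] z) (𝓝 (g z)) := (hg.continuousAt (isOpen_ball.mem_nhds hz)).tendsto.mono_left nhdsWithin_le_nhds
    refine tendsto_nhds_unique (h1.congr' ?_) h2
    filter_upwards [mem_nhdsWithin_of_mem_nhds (isOpen_ball.mem_nhds hz), self_mem_nhdsWithin] with y h3 h4
    exact h y h3 fun h5 => h4 (by rw [h5, hzc]; rfl)
  · exact h z hz hzc

/-- the zeros of a factor of a Weierstrass product are a part of the zeros of the product -/
theorem factor {w : ℂ} {s : ℝ} {κ : Type*} [DecidableEq κ] (a : κ → ℂ) (I : Finset κ) (ha : ∀ i ∈ I, a i ∈ ball w s) {q : ℂ → ℂ}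
    (hq : DifferentiableOn ℂ q (ball w s)) (hq0 : ∀ z ∈ ball w s, q z ≠ 0) :
    ∀ {h p : ℂ → ℂ}, DifferentiableOn ℂ h (ball w s) → DifferentiableOn ℂ p (ball w s) →
      (∀ z ∈ ball w s, h z * p z = (∏ i ∈ I, (z - a i)) * q z) →
      ∃ (S : Finset κ) (e : ℂ → ℂ), S ⊆ I ∧ DifferentiableOn ℂ e (ball w s) ∧ (∀ z ∈ ball w s, e z ≠ 0) ∧
        ∀ z ∈ ball w s, h z = (∏ i ∈ S, (z - a i)) * e z := by
  induction I using Finset.induction_on with
  | empty =>
    intro h p hh hp he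
    refine ⟨∅, h, Finset.Subset.refl _, hh, fun z hz h0 => ?_, fun z _ => by simp⟩
    have h1 := he z hz
    rw [h0, zero_mul, Finset.prod_empty, one_mul] at h1
    exact hq0 z hz h1.symm
  | insert i I hi ih =>
    intro h p hh hp he
    have hai : a i ∈ ball w s := ha i (Finset.mem_insert_self _ _)
    have hnh : ball w s ∈ 𝓝 (a i) := isOpen_ball.mem_nhds hai
    have hpc : ContinuousOn (fun z => (∏ i ∈ I, (z - a i)) * q z) (ball w s) :=
      ContinuousOn.mul (by fun_prop) hq.continuousOn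
    have key : h (a i) = 0 ∨ p (a i) = 0 := by
      have h1 := he (a i) hai
      rw [Finset.prod_insert hi, sub_self, zero_mul, zero_mul] at h1
      exact mul_eq_zero.1 h1
    rcases key with h0 | h0
    · have hd : DifferentiableOn ℂ (dslope h (a i)) (ball w s) := (Complex.differentiableOn_dslope hnh).2 hh
      have hm : ∀ z, (z - a i) * dslope h (a i) z = h z := fun z => by
        have := sub_smul_dslope h (a i) z
        rwa [smul_eq_mul, h0, sub_zero] at this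
      obtain ⟨S, e, hS, h1, h2, h3⟩ := ih (fun j hj => ha j (Finset.mem_insert_of_mem hj)) (h := dslope h (a i)) (p := p) hd hp (by
        refine eq_of_punctured (hd.continuousOn.mul hp.continuousOn) hpc (c := a i) fun z hz hza => ?_
        have h4 := he z hz
        rw [Finset.prod_insert hi, ← hm z, mul_assoc, mul_assoc] at h4
        exact mul_left_cancel₀ (sub_ne_zero.2 hza) h4)
      refine ⟨insert i S, e, Finset.insert_subset_insert _ hS, h1, h2, fun z hz => ?_⟩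
      rw [← hm z, h3 z hz, Finset.prod_insert (fun h5 => hi (hS h5)), mul_assoc]
    · have hd : DifferentiableOn ℂ (dslope p (a i)) (ball w s) := (Complex.differentiableOn_dslope hnh).2 hp
      have hm : ∀ z, (z - a i) * dslope p (a i) z = p z := fun z => by
        have := sub_smul_dslope p (a i) z
        rwa [smul_eq_mul, h0, sub_zero] at this
      obtain ⟨S, e, hS, h1, h2, h3⟩ := ih (fun j hj => ha j (Finset.mem_insert_of_mem hj)) (h := h) (p := dslope p (a i)) hh hd (by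
        refine eq_of_punctured (hh.continuousOn.mul hd.continuousOn) hpc (c := a i) fun z hz hza => ?_
        have h4 := he z hz
        rw [Finset.prod_insert hi, ← hm z] at h4
        refine mul_left_cancel₀ (sub_ne_zero.2 hza) ?_
        linear_combination h4)
      exact ⟨S, e, hS.trans (Finset.subset_insert _ _), h1, h2, h3⟩

variable {V : Type*} [NormedAddCommGroup V] [NormedSpace ℂ V] {ι : Type*} [Fintype ι]

theorem continuous_phi (l : ι → V →L[ℂ] ℂ) : Continuous (phi l) :=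
  continuous_pi fun b => (l b).continuous.smul continuous_id

theorem differentiableOn_phi {l : ι → V →L[ℂ] ℂ} {G : ℂ → V} {s : Set ℂ} (hG : DifferentiableOn ℂ G s) :
    DifferentiableOn ℂ (fun z => phi l (G z)) s := by
  rw [differentiableOn_pi]
  intro b
  exact ((l b).differentiable.comp_differentiableOn hG).smul hG

theorem deriv_phi {l : ι → V →L[ℂ] ℂ} {G : ℂ → V} {w : ℂ} (hG : DifferentiableAt ℂ G w) (h0 : ∀ a, l a (G w) = 0) :
    deriv (fun z => phi l (G z)) w = fun a => l a (deriv G w) • G w := by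
  refine HasDerivAt.deriv ?_
  rw [hasDerivAt_pi]
  intro a
  have h1 : HasDerivAt (fun z => l a (G z)) (l a (deriv G w)) w := (l a).hasFDerivAt.comp_hasDerivAt w hG.hasDerivAt
  have h2 := h1.smul hG.hasDerivAt
  rw [h0 a, zero_smul, zero_add] at h2
  exact h2

/-- **The first lift.** -/
theorem first_lift [CompleteSpace V] {𝒰 : Ultrafilter ℕ} {l : ι → V →L[ℂ] ℂ} {F : ℕ → ℂ → V} {w : ℂ} {m : ℕ} {G : ℂ → V} {r : ℝ}
    (hO : Obj 𝒰 F w m G r) (hq : ∀ a, l a (G w) = 0) {b : ι} (hb : l b (deriv G w) ≠ 0) {h : ℕ → ℂ → ℂ} {Φ : ℕ → ℂ → ι → V}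
    (hh : ∀ᶠ n in (𝒰 : Filter ℕ), DifferentiableOn ℂ (h n) (ball w r))
    (hΦ : ∀ᶠ n in (𝒰 : Filter ℕ), DifferentiableOn ℂ (Φ n) (ball w r) ∧ ∀ z ∈ ball w r, Φ n z ≠ 0)
    (hF : ∀ᶠ n in (𝒰 : Filter ℕ), ∀ z ∈ ball w r, phi l (F n z) = h n z • Φ n z) :
    ∃ (k : ℕ) (S : Finset ℕ) (r' : ℝ) (a : ℕ → ℕ → ℂ) (e : ℕ → ℂ → ℂ), k + S.card = 2 * m + 1 ∧ 0 < r' ∧ r' ≤ r ∧
      (∀ i, Tendsto (a i) 𝒰 (𝓝 w)) ∧
      (∀ᶠ n in (𝒰 : Filter ℕ), DifferentiableOn ℂ (e n) (ball w r') ∧ (∀ z ∈ ball w r', e n z ≠ 0) ∧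
        ∀ z ∈ ball w r', h n z = (∏ i ∈ S, (z - a i n)) * e n z) ∧
      Obj 𝒰 (fun n z => e n z • Φ n z) w k (dslope (fun z => phi l (G z)) w) r' := by
  obtain ⟨hr, hF1, hF2, hcc, hG, hG0⟩ := hO
  have hwr : w ∈ ball w r := mem_ball_self hr
  have hnw : ball w r ∈ 𝓝 w := isOpen_ball.mem_nhds hwr
  obtain ⟨Λ, hΛ⟩ : ∃ Λ : V →L[ℂ] ℂ, Λ (G w) ≠ 0 := by
    obtain ⟨Λ, hΛ⟩ := exists_dual_vector ℂ (G w) (norm_ne_zero_iff.mpr hG0)
    refine ⟨Λ, ?_⟩
    rw [hΛ.2]
    simpa using hG0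
  -- the limit upstairs
  obtain ⟨G₁, hG₁⟩ : ∃ G₁, G₁ = dslope (fun z => phi l (G z)) w := ⟨_, rfl⟩
  have hφG : DifferentiableOn ℂ (fun z => phi l (G z)) (ball w r) := differentiableOn_phi hG
  have hG₁d : DifferentiableOn ℂ G₁ (ball w r) := by
    rw [hG₁]
    exact (Complex.differentiableOn_dslope hnw).2 hφG
  have hG₁w : G₁ w = fun a => l a (deriv G w) • G w := by
    rw [hG₁, dslope_same, deriv_phi (hG.differentiableAt hnw) hq]
  have hφw : phi l (G w) = 0 := by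
    funext a
    simp [phi, hq a]
  have hG₁e : ∀ z, phi l (G z) = (z - w) • G₁ z := fun z => by
    have := sub_smul_dslope (fun z => phi l (G z)) w z
    rw [hφw, sub_zero] at this
    rw [hG₁]
    exact this.symm
  have hG₁0 : G₁ w ≠ 0 := by
    rw [hG₁w]
    intro h0
    have := congrFun h0 b
    exact smul_ne_zero hb hG0 this
  -- one component
  obtain ⟨κ, hκ⟩ : ∃ κ : ℂ → ℂ, ∀ z, κ z = Λ (G₁ z b) := ⟨_, fun z => rfl⟩
  have hκd : DifferentiableOn ℂ κ (ball w r) := by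
    have e1 : κ = fun z => Λ (G₁ z b) := funext hκ
    rw [e1]
    exact Λ.differentiable.comp_differentiableOn (differentiableOn_pi.1 hG₁d b)
  have hκ0 : κ w ≠ 0 := by
    rw [hκ, hG₁w, map_smul, smul_eq_mul]
    exact mul_ne_zero hb hΛ
  have hy : CC 𝒰 (fun n z => Λ (phi l (F n z) b)) (fun z => (z - w) ^ (2 * m + 1) * κ z) (ball w r) := by
    intro z₀ hz₀ z hz
    have h1 := hcc z₀ hz₀ z hz
    have h2 : Tendsto (fun n => Λ (phi l (F n (z n)) b)) 𝒰 (𝓝 (Λ (phi l ((z₀ - w) ^ m • G z₀) b))) :=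
      (Λ.continuous.tendsto _).comp (((continuous_apply b).tendsto _).comp (((continuous_phi l).tendsto _).comp h1))
    have h3 : Λ (phi l ((z₀ - w) ^ m • G z₀) b) = (z₀ - w) ^ (2 * m + 1) * κ z₀ := by
      rw [Pool.Agent.H62.BU.phi_smul, hG₁e, Pi.smul_apply, Pi.smul_apply, map_smul, map_smul, hκ, smul_eq_mul, smul_eq_mul]
      ring
    rwa [h3] at h2
  obtain ⟨a, q, ha, hq1, hq2, hq3⟩ := weier hr hκd hκ0 (2 * m + 1) (h := fun n z => Λ (phi l (F n z) b)) (by
    filter_upwards [hF1] with n hn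
    exact Λ.differentiable.comp_differentiableOn (differentiableOn_pi.1 (differentiableOn_phi hn) b)) hy
  -- a ball where `κ` has no zero
  obtain ⟨s, hs0, hsr, hsκ⟩ : ∃ s : ℝ, 0 < s ∧ s < r ∧ ∀ z ∈ closedBall w s, κ z ≠ 0 := by
    have h1 : ∀ᶠ z in 𝓝 w, κ z ≠ 0 := (hκd.continuousOn.continuousAt hnw).eventually_ne hκ0
    obtain ⟨s, hs, hs2⟩ := Metric.eventually_nhds_iff_ball.1 h1
    refine ⟨min (s / 2) (r / 2), by positivity, (min_le_right _ _).trans_lt (by linarith), fun z hz => hs2 z ?_⟩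
    exact closedBall_subset_ball ((min_le_left _ _).trans_lt (by linarith)) hz
  have hsub : ball w s ⊆ ball w r := ball_subset_ball hsr.le
  have hcsub : closedBall w s ⊆ ball w r := closedBall_subset_ball hsr
  have hqne : ∀ᶠ n in (𝒰 : Filter ℕ), ∀ z ∈ ball w s, q n z ≠ 0 := by
    have h1 : ∀ᶠ n in (𝒰 : Filter ℕ), ∀ z ∈ closedBall w s, q n z ≠ 0 := by
      refine Pool.Agent.H74.NB.unif_of_seq (isCompact_closedBall w s) fun z₀ hz₀ z _ hz => ?_
      exact ((hq3 z₀ (hcsub hz₀) z hz).eventually_ne (hsκ z₀ hz₀)).frequently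
    exact h1.mono fun n hn z hz => hn z (ball_subset_closedBall hz)
  have haev : ∀ᶠ n in (𝒰 : Filter ℕ), ∀ i ∈ Finset.range (2 * m + 1), a i n ∈ ball w s :=
    (Filter.eventually_all_finset _).2 fun i _ => (ha i).eventually (isOpen_ball.mem_nhds (mem_ball_self hs0))
  have hfac : ∀ᶠ n in (𝒰 : Filter ℕ), ∃ S ∈ {S : Finset ℕ | S ⊆ Finset.range (2 * m + 1)}, ∃ e : ℂ → ℂ,
      DifferentiableOn ℂ e (ball w s) ∧ (∀ z ∈ ball w s, e z ≠ 0) ∧ ∀ z ∈ ball w s, h n z = (∏ i ∈ S, (z - a i n)) * e z := by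
    filter_upwards [hqne, haev, hq1, hq2, hh, hΦ, hF] with n g1 g2 g3 g4 g5 g6 g7
    obtain ⟨S, e, hS, h1, h2, h3⟩ := factor (fun i => a i n) (Finset.range (2 * m + 1)) g2 (g3.mono hsub) g1 (h := h n)
      (p := fun z => Λ (Φ n z b)) (g5.mono hsub) ((Λ.differentiable.comp_differentiableOn (differentiableOn_pi.1 g6.1 b)).mono hsub)
      (fun z hz => by
        rw [← g4 z, g7 z (hsub hz), Pi.smul_apply, map_smul, smul_eq_mul])
    exact ⟨S, hS, e, h1, h2, h3⟩
  have hfin : {S : Finset ℕ | S ⊆ Finset.range (2 * m + 1)}.Finite := by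
    refine Set.Finite.subset (Finset.finite_toSet (Finset.range (2 * m + 1)).powerset) fun S hS => ?_
    exact Finset.mem_coe.2 (Finset.mem_powerset.2 hS)
  obtain ⟨S, hS, hSe⟩ := (Ultrafilter.eventually_exists_mem_iff hfin).1 hfac
  choose! e he using fun (n : ℕ) (h : ∃ e : ℂ → ℂ, DifferentiableOn ℂ e (ball w s) ∧ (∀ z ∈ ball w s, e z ≠ 0) ∧
    ∀ z ∈ ball w s, h n z = (∏ i ∈ S, (z - a i n)) * e z) => h
  have hee : ∀ᶠ n in (𝒰 : Filter ℕ), DifferentiableOn ℂ (e n) (ball w s) ∧ (∀ z ∈ ball w s, e n z ≠ 0) ∧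
      ∀ z ∈ ball w s, h n z = (∏ i ∈ S, (z - a i n)) * e n z := hSe.mono fun n hn => he n hn
  have hcard : S.card ≤ 2 * m + 1 := by
    have := Finset.card_le_card hS
    rwa [Finset.card_range] at this
  refine ⟨2 * m + 1 - S.card, S, s, a, e, by omega, hs0, hsr.le, ha, hee, hs0, ?_, ?_, ?_, ?_, ?_⟩
  · filter_upwards [hee, hΦ] with n h1 h2
    exact h1.1.smul (h2.1.mono hsub)
  · filter_upwards [hee, hΦ] with n h1 h2 z hz
    exact smul_ne_zero (h1.2.1 z hz) (h2.2 z (hsub hz))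
  · rw [← hG₁]
    have hlim : DifferentiableOn ℂ (fun z => (z - w) ^ (2 * m + 1 - S.card) • G₁ z) (ball w s) := by
      have e1 : DifferentiableOn ℂ (fun z : ℂ => (z - w) ^ (2 * m + 1 - S.card)) (ball w s) := by fun_prop
      exact e1.smul (hG₁d.mono hsub)
    refine CC.of_sphere ?_ hlim ?_
    · filter_upwards [hee, hΦ] with n h1 h2
      exact h1.1.smul (h2.1.mono hsub)
    · intro t ht0 hts z₀ hz₀ z hz1 hz2
      have hz0 : z₀ ≠ w := by
        rintro rfl
        simp [ht0.ne] at hz₀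
      have hz₀' : z₀ ∈ ball w s := closedBall_subset_ball hts (sphere_subset_closedBall hz₀)
      have h1 : Tendsto (fun n => phi l (F n (z n))) 𝒰 (𝓝 (phi l ((z₀ - w) ^ m • G z₀))) :=
        ((continuous_phi l).tendsto _).comp (hcc z₀ (hsub hz₀') z hz2)
      have h2 : Tendsto (fun n => ∏ i ∈ S, (z n - a i n)) 𝒰 (𝓝 (∏ i ∈ S, (z₀ - w))) :=
        tendsto_finset_prod _ fun i _ => hz2.sub (ha i)
      rw [Finset.prod_const] at h2
      have h3 : (z₀ - w) ^ S.card ≠ 0 := pow_ne_zero _ (sub_ne_zero.2 hz0)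
      have h4 := (h2.inv₀ h3).smul h1
      have h5 : ((z₀ - w) ^ S.card)⁻¹ • phi l ((z₀ - w) ^ m • G z₀) = (z₀ - w) ^ (2 * m + 1 - S.card) • G₁ z₀ := by
        rw [inv_smul_eq_iff₀ h3, Pool.Agent.H62.BU.phi_smul, hG₁e, smul_smul, smul_smul, ← pow_add]
        congr 1
        rw [← pow_mul, ← pow_succ]
        congr 1
        omega
      rw [h5] at h4
      refine h4.congr' ?_
      filter_upwards [hee, hF, hz2.eventually (isOpen_ball.mem_nhds hz₀'), h2.eventually_ne h3] with n g1 g2 g3 g4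
      rw [inv_smul_eq_iff₀ g4, g2 _ (hsub g3), g1.2.2 _ g3, smul_smul]
  · rw [← hG₁]
    exact hG₁d.mono hsub
  · rw [← hG₁]
    exact hG₁0

end Pool.Agent.H82.XB
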