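import Pool.Agent.H62.BU.Exc

/-!
# XB Sec: the secant cone and the total transform near a point of the exceptional curve

`Sec T q v`: `v` is a limit of multiples of the secants `x - q`, `x ∈ T`, `x → q`.  If no `v + c • q` is such a limit, then near `(l a v • q)_a` the total
transform of `T` is contained in the exceptional curve.

Proof: otherwise there are `y n → (l a v • q)_a` in the total transform with `l b (y n b) ≠ 0`.  With a linear form `Λ`, `Λ q = 1`, put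
`x n = (Λ (y n b))⁻¹ • y n b ∈ T`, `x n → q`; by `eq_phi` `l a (x n) / l b (x n) = Λ (y n a) / Λ (y n b) → l a v / l b v`.  So for
`c n = l b v / l b (x n)` all `l a (c n • (x n - q)) → l a v`, and `Λ (x n - q) = 0`: as `(l, Λ)` is injective, `c n • (x n - q) → v - Λ v • q`.
-/

set_option autoImplicit false
set_option linter.unusedSectionVars false

open Topology Filter Metric

noncomputable section

namespace Pool.Agent.H82.XB

open Pool.Agent.H62.BU (blow total Ker phi Surface)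

variable {V : Type*} [NormedAddCommGroup V] [NormedSpace ℂ V] {ι : Type*} [Fintype ι] {l : ι → V →L[ℂ] ℂ} {X T : Set V} {q v : V}

/-- `v` is a limit of multiples of secants of `T` at `q` -/
def Sec (T : Set V) (q v : V) : Prop :=
  ∃ (x : ℕ → V) (c : ℕ → ℂ), (∀ n, x n ∈ T) ∧ Tendsto x atTop (𝓝 q) ∧ Tendsto (fun n => c n • (x n - q)) atTop (𝓝 v)

/-- convergence in `V` from the convergence of the forms `l`, `Λ` -/
theorem tendsto_of_forms [FiniteDimensional ℂ V] (hl : Ker l q) {Λ : V →L[ℂ] ℂ} (hΛ : Λ q ≠ 0) {w : ℕ → V} {w₀ : V}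
    (h1 : ∀ a, Tendsto (fun n => l a (w n)) atTop (𝓝 (l a w₀))) (h2 : Tendsto (fun n => Λ (w n)) atTop (𝓝 (Λ w₀))) :
    Tendsto w atTop (𝓝 w₀) := by
  let A : V →L[ℂ] (ι → ℂ) × ℂ := (ContinuousLinearMap.pi l).prod Λ
  have hA : ∀ v, A v = (fun a => l a v, Λ v) := fun v => rfl
  have hinj : Function.Injective A := by
    intro u u' huu
    have h3 : A (u - u') = 0 := by rw [map_sub, huu, sub_self]
    rw [hA] at h3
    have h4 : ∀ a, l a (u - u') = 0 := fun a => congrFun (congrArg Prod.fst h3) a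
    have h5 : Λ (u - u') = 0 := congrArg Prod.snd h3
    obtain ⟨c, hc⟩ := (hl _).1 h4
    rw [hc, map_smul, smul_eq_mul] at h5
    rw [(mul_eq_zero.1 h5).resolve_right hΛ, zero_smul] at hc
    exact sub_eq_zero.1 hc
  have hemb : Topology.IsClosedEmbedding A :=
    LinearMap.isClosedEmbedding_of_injective (f := (A : V →ₗ[ℂ] (ι → ℂ) × ℂ)) (LinearMap.ker_eq_bot.2 hinj)
  rw [hemb.isInducing.tendsto_nhds_iff]
  have h6 : Tendsto (fun n => ((fun a => l a (w n), Λ (w n)) : (ι → ℂ) × ℂ)) atTop (𝓝 (fun a => l a w₀, Λ w₀)) :=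
    (tendsto_pi_nhds.2 h1).prodMk_nhds h2
  exact h6

theorem total_near [FiniteDimensional ℂ V] (hX : Surface X) (hl : Ker l q) (hq : q ≠ 0)
    (hT : ∀ x ∈ T, ∀ c : ℂ, c ≠ 0 → c • x ∈ T) {b : ι} (hb : l b v ≠ 0) (hs : ∀ c : ℂ, ¬ Sec T q (v + c • q)) :
    ∀ᶠ y in 𝓝 (fun a => l a v • q), y ∈ total l X T → l b (y b) = 0 := by
  by_contra hcon
  rw [Filter.not_eventually] at hcon
  obtain ⟨y, hy1, hy2⟩ := Filter.exists_seq_forall_of_frequently hcon
  push Not at hy2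
  obtain ⟨Λ, hΛ⟩ : ∃ Λ : V →L[ℂ] ℂ, Λ q ≠ 0 := by
    obtain ⟨Λ, hΛ⟩ := exists_dual_vector ℂ q (norm_ne_zero_iff.mpr hq)
    refine ⟨Λ, ?_⟩
    rw [hΛ.2]
    simpa using hq
  have hyc : ∀ a, Tendsto (fun n => y n a) atTop (𝓝 (l a v • q)) := fun a => by
    exact ((continuous_apply a).tendsto _).comp hy1
  have hyΛ : ∀ a, Tendsto (fun n => Λ (y n a)) atTop (𝓝 (l a v * Λ q)) := fun a => by
    have := (Λ.continuous.tendsto _).comp (hyc a)
    rwa [map_smul, smul_eq_mul] at this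
  have hlq : ∀ a, l a q = 0 := (hl q).2 ⟨1, (one_smul _ _).symm⟩
  -- only finitely many terms are bad
  have hev : ∀ᶠ n in atTop, Λ (y n b) ≠ 0 := (hyΛ b).eventually_ne (mul_ne_zero hb hΛ)
  obtain ⟨n₀, hn₀⟩ := Filter.eventually_atTop.1 hev
  obtain ⟨Y, hY⟩ : ∃ Y : ℕ → ι → V, ∀ n, Y n = y (n + n₀) := ⟨fun n => y (n + n₀), fun n => rfl⟩
  have hYt : Tendsto Y atTop (𝓝 (fun a => l a v • q)) := by
    have e0 : Y = fun n => y (n + n₀) := funext hY
    rw [e0]
    exact (tendsto_add_atTop_iff_nat n₀).2 hy1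
  have hYc : ∀ a, Tendsto (fun n => Y n a) atTop (𝓝 (l a v • q)) := fun a => ((continuous_apply a).tendsto _).comp hYt
  have hYΛ : ∀ a, Tendsto (fun n => Λ (Y n a)) atTop (𝓝 (l a v * Λ q)) := fun a => by
    have := (Λ.continuous.tendsto _).comp (hYc a)
    rwa [map_smul, smul_eq_mul] at this
  have hY0 : ∀ n, Λ (Y n b) ≠ 0 := fun n => by
    rw [hY]
    exact hn₀ _ (by omega)
  have hYT : ∀ n, Y n ∈ total l X T := fun n => by rw [hY]; exact (hy2 _).1
  have hYb : ∀ n, l b (Y n b) ≠ 0 := fun n => by rw [hY]; exact (hy2 _).2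
  have hYne : ∀ n, Y n b ≠ 0 := fun n h0 => hY0 n (by rw [h0, map_zero])
  -- the points
  obtain ⟨x, hx⟩ : ∃ x : ℕ → V, ∀ n, x n = (Λ q / Λ (Y n b)) • Y n b := ⟨_, fun n => rfl⟩
  have hr0 : ∀ n, Λ q / Λ (Y n b) ≠ 0 := fun n => div_ne_zero hΛ (hY0 n)
  have hxT : ∀ n, x n ∈ T := fun n => by
    rw [hx]
    exact hT _ ((hYT n).2 b (hYne n)) _ (hr0 n)
  have hxt : Tendsto x atTop (𝓝 q) := by
    have e0 : x = fun n => (Λ q / Λ (Y n b)) • Y n b := funext hx
    rw [e0]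
    have h3 := (tendsto_const_nhds (x := Λ q)).div (hYΛ b) (mul_ne_zero hb hΛ)
    have h4 := h3.smul (hYc b)
    have h5 : (Λ q / (l b v * Λ q)) • l b v • q = q := by
      rw [smul_smul]
      have : Λ q / (l b v * Λ q) * l b v = 1 := by field_simp
      rw [this, one_smul]
    rwa [h5] at h4
  have hlx0 : ∀ n, l b (x n) ≠ 0 := fun n => by
    rw [hx, map_smul, smul_eq_mul]
    exact mul_ne_zero (hr0 n) (hYb n)
  -- the ratios
  have hrat : ∀ a n, l a (x n) / l b (x n) = Λ (Y n a) / Λ (Y n b) := fun a n => by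
    have h3 := Pool.Agent.H62.BU.eq_phi (Y n) (hYT n).1 (hYne n) (hYb n)
    have h4 : Λ (Y n a) = (l b (Y n b))⁻¹ * (l a (Y n b) * Λ (Y n b)) := by
      conv_lhs => rw [h3]
      simp only [phi, Pi.smul_apply, map_smul, smul_eq_mul]
    rw [h4, hx, map_smul, map_smul, smul_eq_mul, smul_eq_mul, mul_div_mul_left _ _ (hr0 n)]
    field_simp [hY0 n, hYb n]
  obtain ⟨c, hc⟩ : ∃ c : ℕ → ℂ, ∀ n, c n = l b v / l b (x n) := ⟨_, fun n => rfl⟩
  refine hs (-(Λ v / Λ q)) ⟨x, c, hxT, hxt, ?_⟩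
  refine tendsto_of_forms hl hΛ ?_ ?_
  · intro a
    have h3 : ∀ n, l a (c n • (x n - q)) = l b v * (Λ (Y n a) / Λ (Y n b)) := fun n => by
      rw [map_smul, map_sub, hlq, sub_zero, smul_eq_mul, hc, ← hrat a n]
      ring
    simp only [h3]
    have h4 := ((hYΛ a).div (hYΛ b) (mul_ne_zero hb hΛ)).const_mul (l b v)
    have h5 : l b v * (l a v * Λ q / (l b v * Λ q)) = l a (v + -(Λ v / Λ q) • q) := by
      rw [map_add, map_smul, hlq, smul_zero, add_zero]
      field_simp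
    rwa [h5] at h4
  · have h3 : ∀ n, Λ (c n • (x n - q)) = 0 := fun n => by
      rw [map_smul, map_sub, hx, map_smul, smul_eq_mul, smul_eq_mul, div_mul_cancel₀ _ (hY0 n), sub_self, mul_zero]
    simp only [h3]
    have h4 : Λ (v + -(Λ v / Λ q) • q) = 0 := by
      rw [map_add, map_smul, smul_eq_mul, neg_mul, div_mul_cancel₀ _ hΛ, add_neg_cancel]
    rw [h4]
    exact tendsto_const_nhds

end Pool.Agent.H82.XB
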