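import Pool.Agent.H82.XB.Fac

/-!
# XB Tot: the total transform near a point of the exceptional curve
-/

set_option autoImplicit false
set_option linter.unusedSectionVars false

open Topology Filter Metric

noncomputable section

namespace Pool.Agent.H82.XB

open Pool.Agent.H17BP (Surface IsForm IsChart Bihol surface_iff chart_iff isForm_iff)
open Pool.Agent.H62.BU (blow total Ker phi om)

variable {V : Type} [NormedAddCommGroup V] [NormedSpace ℂ V] {ι : Type} [Fintype ι] {l : ι → V →L[ℂ] ℂ} {X T : Set V} {q : V}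
  {σ : ℂ × ℂ → V} {τ : V → ℂ × ℂ} {σ₁ : ℂ × ℂ → ι → V} {τ₁ : (ι → V) → ℂ × ℂ}

/-- a component which does not vanish -/
theorem exists_comp [FiniteDimensional ℂ V] (h : IsChart X σ τ) (h0 : σ 0 = q) (h1 : IsChart (blow l X) σ₁ τ₁)
    (h3 : σ₁ 0 = fun b => l b (fderiv ℂ σ 0 (1, 0)) • q) : ∃ b, l b (fderiv ℂ σ 0 (1, 0)) ≠ 0 := by
  by_contra hcon
  push Not at hcon
  refine h1.ne ?_
  rw [h3]
  funext b
  simp [hcon b]

/-- The total transform is the exceptional curve if `T` does not meet a cone around the direction. -/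
theorem total_iff [FiniteDimensional ℂ V] (hl : Ker l q) (h : IsChart X σ τ) (h0 : σ 0 = q) (h1 : IsChart (blow l X) σ₁ τ₁)
    (h2 : ∀ᶠ p in 𝓝 (0 : ℂ × ℂ), phi l (σ (p.1, p.1 * p.2)) = p.1 • σ₁ p)
    (h3 : σ₁ 0 = fun b => l b (fderiv ℂ σ 0 (1, 0)) • q) (hq : q ∈ T) (hT : ∀ x ∈ T, ∀ c : ℂ, c ≠ 0 → c • x ∈ T)
    (hn : ∀ᶠ p in 𝓝 (0 : ℂ × ℂ), p.1 ≠ 0 → σ (p.1, p.1 * p.2) ∉ T) :
    ∀ᶠ p in 𝓝 (0 : ℂ × ℂ), (σ₁ p ∈ total l X T ↔ p.1 = 0) := by
  obtain ⟨b, hb⟩ := exists_comp h h0 h1 h3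
  choose R hR1 hR2 hR3 using fun a => exc_factor (q := q) hl h h0 h1.σ_an h2 a
  have hRb : R b 0 ≠ 0 := by
    have := (hR3 b).self_of_nhds
    have e0 : ((0 : ℂ), (0 : ℂ)) = (0 : ℂ × ℂ) := rfl
    rw [e0] at this
    rw [this]
    exact hb
  filter_upwards [hn, h1.σ_mem, Filter.eventually_all.2 hR2, (hR1 b).continuousAt.eventually_ne hRb] with p g1 g2 g3 g4
  constructor
  · intro g5
    by_contra g6
    refine g1 g6 ?_
    have g7 := (g3 b).1
    have g8 : σ₁ p b ≠ 0 ∨ σ (p.1, p.1 * p.2) = 0 := by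
      by_cases g9 : σ (p.1, p.1 * p.2) = 0
      · exact Or.inr g9
      · left
        rw [g7]
        exact smul_ne_zero g4 g9
    rcases g8 with g8 | g8
    · have g9 := g5.2 b g8
      have g10 := hT _ g9 (R b p)⁻¹ (inv_ne_zero g4)
      rwa [g7, smul_smul, inv_mul_cancel₀ g4, one_smul] at g10
    · exfalso
      refine g2.2 ?_
      funext a
      rw [(g3 a).1, g8, smul_zero]
      rfl
  · intro g5
    refine ⟨g2, fun a ha => ?_⟩
    have g6 := (g3 a).1
    have g7 : σ (p.1, p.1 * p.2) = q := by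
      rw [g5, zero_mul]
      exact h0
    rw [g7] at g6
    rw [g6]
    refine hT _ hq _ fun g8 => ha ?_
    rw [g6, g8, zero_smul]

end Pool.Agent.H82.XB
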